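import Pool.Agent.H78R3.TSV.Defs
import Pool.Agent.H612.AR

/-!
# The spectral norm of a tensor: the decision problems

`IsCube` and `entry` (in `Pool.Agent.H78R3.TSV.Defs`) describe a `d × d × d` tensor given as a nested
list of rational numbers.
-/

namespace Pool.Agent.N586.SN

open Pool.Agent.H78R3.TSV

/-- The value `T(x, y, z) = ∑ t_{ijk} x_i y_j z_k` of a real `d × d × d` tensor. -/
def tval {d : ℕ} (t : Fin d → Fin d → Fin d → ℝ) (x y z : EuclideanSpace ℝ (Fin d)) : ℝ :=
  ∑ i, ∑ j, ∑ k, t i j k * x i * y j * z k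

/-- The spectral norm: the supremum of `|T(x, y, z)|` over all unit vectors `x`, `y`, `z`. -/
noncomputable def spectralNorm {d : ℕ} (t : Fin d → Fin d → Fin d → ℝ) : ℝ :=
  sSup {r : ℝ | ∃ x y z : EuclideanSpace ℝ (Fin d),
    ‖x‖ = 1 ∧ ‖y‖ = 1 ∧ ‖z‖ = 1 ∧ r = |tval t x y z|}

/-- The decision problem **SPECTRAL-NORM-BOUND**: the input is a `d × d × d` tensor with rational
entries (a nested list; `d` is its length) and a positive rational number `σ`; the question is
whether the spectral norm of the tensor is at most `σ`. -/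
def SpectralNormBound (q : List (List (List ℚ)) × ℚ) : Prop :=
  IsCube q.1 ∧ 0 < q.2 ∧
    spectralNorm (fun i j k : Fin q.1.length => ((entry q.1 i j k : ℚ) : ℝ)) ≤ (q.2 : ℝ)

/-- The decision problem **SPECTRAL-NORM-EXCEED**: for the same inputs, the question is whether the
spectral norm of the tensor is greater than `σ`. -/
def SpectralNormExceed (q : List (List (List ℚ)) × ℚ) : Prop :=
  IsCube q.1 ∧ 0 < q.2 ∧
    (q.2 : ℝ) < spectralNorm (fun i j k : Fin q.1.length => ((entry q.1 i j k : ℚ) : ℝ))

end Pool.Agent.N586.SN
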