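import Pool.Agent.N586.SN.Defs
import Pool.Agent.H78R3.TSV.Sing

/-!
# Exceeding a bound on the spectral norm, with vectors indexed by all natural numbers
-/

namespace Pool.Agent.N586.SN

open Finset Pool.Agent.H78R3.TSV

/-- A version with vectors indexed by all natural numbers. -/
def IsEx (d : ℕ) (t : ℕ → ℕ → ℕ → ℝ) (σ : ℝ) : Prop :=
  ∃ x y z : ℕ → ℝ, ∑ i ∈ range d, x i ^ 2 = 1 ∧ ∑ i ∈ range d, y i ^ 2 = 1 ∧
    ∑ i ∈ range d, z i ^ 2 = 1 ∧
    σ < ∑ i ∈ range d, ∑ j ∈ range d, ∑ k ∈ range d, t i j k * x i * y j * z k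

theorem abs_coord_le {d : ℕ} {x : EuclideanSpace ℝ (Fin d)} (hx : ‖x‖ = 1) (i : Fin d) :
    |x i| ≤ 1 := by
  rw [norm_eq_one_iff] at hx
  have h1 : x i ^ 2 ≤ 1 := by
    rw [← hx]
    exact Finset.single_le_sum (f := fun i => x i ^ 2) (fun i _ => sq_nonneg _) (mem_univ i)
  exact abs_le_one_iff_mul_self_le_one.2 (by nlinarith)

theorem bddAbove_vals {d : ℕ} (t : Fin d → Fin d → Fin d → ℝ) :
    BddAbove {r : ℝ | ∃ x y z : EuclideanSpace ℝ (Fin d),
      ‖x‖ = 1 ∧ ‖y‖ = 1 ∧ ‖z‖ = 1 ∧ r = |tval t x y z|} := by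
  refine ⟨∑ i, ∑ j, ∑ k, |t i j k|, ?_⟩
  rintro r ⟨x, y, z, hx, hy, hz, rfl⟩
  unfold tval
  refine (Finset.abs_sum_le_sum_abs _ _).trans (Finset.sum_le_sum fun i _ => ?_)
  refine (Finset.abs_sum_le_sum_abs _ _).trans (Finset.sum_le_sum fun j _ => ?_)
  refine (Finset.abs_sum_le_sum_abs _ _).trans (Finset.sum_le_sum fun k _ => ?_)
  rw [abs_mul, abs_mul, abs_mul]
  have h1 := abs_coord_le hx i
  have h2 := abs_coord_le hy j
  have h3 := abs_coord_le hz k
  have h4 : |t i j k| * |x i| ≤ |t i j k| := mul_le_of_le_one_right (abs_nonneg _) h1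
  have h5 : |t i j k| * |x i| * |y j| ≤ |t i j k| :=
    (mul_le_of_le_one_right (by positivity) h2).trans h4
  exact (mul_le_of_le_one_right (by positivity) h3).trans h5

theorem exceed_iff {d : ℕ} (t : ℕ → ℕ → ℕ → ℝ) {σ : ℝ} (hσ : 0 ≤ σ) :
    σ < spectralNorm (fun i j k : Fin d => t i j k) ↔ IsEx d t σ := by
  constructor
  · intro h
    unfold spectralNorm at h
    obtain ⟨r, ⟨x, y, z, hx, hy, hz, rfl⟩, hr⟩ : ∃ r ∈ {r : ℝ | ∃ x y z :
        EuclideanSpace ℝ (Fin d), ‖x‖ = 1 ∧ ‖y‖ = 1 ∧ ‖z‖ = 1 ∧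
        r = |tval (fun i j k : Fin d => t i j k) x y z|}, σ < r := by
      apply exists_lt_of_lt_csSup _ h
      by_contra hne
      rw [Set.not_nonempty_iff_eq_empty] at hne
      rw [hne, Real.sSup_empty] at h
      linarith
    rw [norm_eq_one_iff] at hx hy hz
    let X : ℕ → ℝ := fun i => if h : i < d then x ⟨i, h⟩ else 0
    let Y : ℕ → ℝ := fun i => if h : i < d then y ⟨i, h⟩ else 0
    let Z : ℕ → ℝ := fun i => if h : i < d then z ⟨i, h⟩ else 0
    have eX : ∀ i : Fin d, X i = x i := fun i => by simp [X]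
    have eY : ∀ i : Fin d, Y i = y i := fun i => by simp [Y]
    have eZ : ∀ i : Fin d, Z i = z i := fun i => by simp [Z]
    have sX : ∑ i ∈ range d, X i ^ 2 = 1 := by
      rw [← Fin.sum_univ_eq_sum_range (fun i => X i ^ 2)]; simpa only [eX] using hx
    have sY : ∑ i ∈ range d, Y i ^ 2 = 1 := by
      rw [← Fin.sum_univ_eq_sum_range (fun i => Y i ^ 2)]; simpa only [eY] using hy
    have sZ : ∑ i ∈ range d, Z i ^ 2 = 1 := by
      rw [← Fin.sum_univ_eq_sum_range (fun i => Z i ^ 2)]; simpa only [eZ] using hz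
    have hval : ∑ i ∈ range d, ∑ j ∈ range d, ∑ k ∈ range d, t i j k * X i * Y j * Z k =
        tval (fun i j k : Fin d => t i j k) x y z := by
      unfold tval
      rw [← Fin.sum_univ_eq_sum_range
        (fun i => ∑ j ∈ range d, ∑ k ∈ range d, t i j k * X i * Y j * Z k)]
      refine Finset.sum_congr rfl fun i _ => ?_
      rw [← Fin.sum_univ_eq_sum_range (fun j => ∑ k ∈ range d, t i j k * X i * Y j * Z k)]
      refine Finset.sum_congr rfl fun j _ => ?_
      rw [← Fin.sum_univ_eq_sum_range (fun k => t i j k * X i * Y j * Z k)]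
      refine Finset.sum_congr rfl fun k _ => ?_
      rw [eX, eY, eZ]
    rcases le_total 0 (tval (fun i j k : Fin d => t i j k) x y z) with h0 | h0
    · refine ⟨X, Y, Z, sX, sY, sZ, ?_⟩
      rw [hval]
      rwa [abs_of_nonneg h0] at hr
    · refine ⟨X, Y, fun k => - Z k, sX, sY, ?_, ?_⟩
      · rw [← sZ]
        exact Finset.sum_congr rfl fun k _ => by ring
      · have : ∑ i ∈ range d, ∑ j ∈ range d, ∑ k ∈ range d, t i j k * X i * Y j * (- Z k) =
            - ∑ i ∈ range d, ∑ j ∈ range d, ∑ k ∈ range d, t i j k * X i * Y j * Z k := by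
          simp only [mul_neg, Finset.sum_neg_distrib]
        rw [this, hval]
        rwa [abs_of_nonpos h0] at hr
  · rintro ⟨x, y, z, hx, hy, hz, h⟩
    refine h.trans_le ?_
    have hval : ∑ i ∈ range d, ∑ j ∈ range d, ∑ k ∈ range d, t i j k * x i * y j * z k =
        tval (fun i j k : Fin d => t i j k) (WithLp.toLp 2 fun i => x i)
          (WithLp.toLp 2 fun i => y i) (WithLp.toLp 2 fun i => z i) := by
      unfold tval
      rw [← Fin.sum_univ_eq_sum_range
        (fun i => ∑ j ∈ range d, ∑ k ∈ range d, t i j k * x i * y j * z k)]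
      refine Finset.sum_congr rfl fun i _ => ?_
      rw [← Fin.sum_univ_eq_sum_range (fun j => ∑ k ∈ range d, t i j k * x i * y j * z k)]
      refine Finset.sum_congr rfl fun j _ => ?_
      rw [← Fin.sum_univ_eq_sum_range (fun k => t i j k * x i * y j * z k)]
    rw [hval]
    refine (le_abs_self _).trans (le_csSup (bddAbove_vals _) ⟨_, _, _, ?_, ?_, ?_, rfl⟩)
    · rw [norm_eq_one_iff, ← hx]
      exact Fin.sum_univ_eq_sum_range (fun i => x i ^ 2) d
    · rw [norm_eq_one_iff, ← hy]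
      exact Fin.sum_univ_eq_sum_range (fun i => y i ^ 2) d
    · rw [norm_eq_one_iff, ← hz]
      exact Fin.sum_univ_eq_sum_range (fun i => z i ^ 2) d

theorem sum3_comm (d : ℕ) (F : ℕ → ℕ → ℕ → ℝ) :
    ∑ i ∈ range d, ∑ j ∈ range d, ∑ k ∈ range d, F i j k =
      ∑ k ∈ range d, ∑ i ∈ range d, ∑ j ∈ range d, F i j k := by
  have h1 : ∀ i ∈ range d, ∑ j ∈ range d, ∑ k ∈ range d, F i j k =
      ∑ k ∈ range d, ∑ j ∈ range d, F i j k := fun i _ => Finset.sum_comm
  rw [Finset.sum_congr rfl h1, Finset.sum_comm]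

/-- The tensor of a list of forms. -/
theorem isEx_ten {d : ℕ} {L : List (List QT)} (hF : ∀ k, FOk d (L.getD k [])) (hL : L.length ≤ d)
    {σ : ℝ} (hσ : 0 ≤ σ) : IsEx d (fun i j k => (ten L i j k : ℝ)) σ ↔
      ∃ x y : ℕ → ℝ, ∑ i ∈ range d, x i ^ 2 = 1 ∧ ∑ i ∈ range d, y i ^ 2 = 1 ∧
        σ ^ 2 < S x y x y L := by
  have hval : ∀ x y z : ℕ → ℝ, ∑ i ∈ range d, ∑ j ∈ range d, ∑ k ∈ range d,
      (ten L i j k : ℝ) * x i * y j * z k = ∑ k ∈ range d, fev x y (L.getD k []) * z k := by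
    intro x y z
    rw [sum3_comm]
    refine Finset.sum_congr rfl fun k _ => ?_
    rw [← sum_cf d _ (hF k), Finset.sum_mul]
    refine Finset.sum_congr rfl fun i _ => ?_
    rw [Finset.sum_mul]
    rfl
  have hS : ∀ x y : ℕ → ℝ, S x y x y L = ∑ k ∈ range d, fev x y (L.getD k []) ^ 2 := by
    intro x y
    unfold S
    rw [← sum_getD L hL (fun f => fev x y f * fev x y f) (by simp)]
    exact Finset.sum_congr rfl fun k _ => by ring
  constructor
  · rintro ⟨x, y, z, hx, hy, hz, h⟩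
    refine ⟨x, y, hx, hy, ?_⟩
    simp only at h
    rw [hval] at h
    have h1 := Finset.sum_mul_sq_le_sq_mul_sq (range d) (fun k => fev x y (L.getD k [])) z
    rw [hz, mul_one] at h1
    rw [hS]
    refine lt_of_lt_of_le ?_ h1
    exact pow_lt_pow_left₀ h hσ two_ne_zero
  · rintro ⟨x, y, hx, hy, h⟩
    have hpos : 0 < S x y x y L := lt_of_le_of_lt (sq_nonneg σ) h
    set r := Real.sqrt (S x y x y L) with hr
    have hr0 : 0 < r := Real.sqrt_pos.2 hpos
    have hr2 : r ^ 2 = S x y x y L := Real.sq_sqrt hpos.le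
    refine ⟨x, y, fun k => fev x y (L.getD k []) / r, hx, hy, ?_, ?_⟩
    · simp_rw [div_pow]
      rw [← Finset.sum_div, ← hS, hr2, div_self hpos.ne']
    · simp only
      rw [hval]
      have h2 : ∑ k ∈ range d, fev x y (L.getD k []) * (fev x y (L.getD k []) / r) =
          (∑ k ∈ range d, fev x y (L.getD k []) ^ 2) / r := by
        rw [Finset.sum_div]
        exact Finset.sum_congr rfl fun k _ => by ring
      rw [h2, ← hS, ← hr2, sq, mul_div_assoc, div_self hr0.ne', mul_one]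
      exact lt_of_pow_lt_pow_left₀ 2 hr0.le (by rw [hr2]; exact h)

end Pool.Agent.N586.SN
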