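import Pool.Agent.N586.SN.Sys

/-!
# The reduction: a tensor and a bound from a system of constraints
-/

namespace Pool.Agent.N586.SN

open Finset Pool.Agent.NPC Pool.Agent.NPC.ER Pool.Agent.H78R3.TSV

/-- The forms: the term `x₀ y₀` is added to the forms of the system. -/
def lforms (n : ℕ) (G : List QC) : List (List QT) :=
  G.map (fun _ => [((1 : ℤ), ((0 : ℕ), (0 : ℕ)))]) ++ forms n G

theorem S_extra (x y : ℕ → ℝ) (G : List QC) :
    S x y x y (G.map (fun _ => [((1 : ℤ), ((0 : ℕ), (0 : ℕ)))])) =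
      (G.length : ℝ) * (4 * (x 0 * y 0) ^ 2) := by
  induction G with
  | nil => simp
  | cons a l ih =>
    simp only [List.map_cons, S_cons, ih, fev_cons, fev_nil, add_zero, tev, bev, List.length_cons]
    push_cast
    ring

/-- The sum of the squares of the forms. -/
theorem S_lforms (n : ℕ) (G : List QC) (hG : ∀ g ∈ G, GOk n g) (x y : ℕ → ℝ) :
    S x y x y (lforms n G) = (G.length : ℝ) * (4 * (x 0 * y 0) ^ 2) +
      (1152 * (G.length : ℝ) ^ 2 * ((∑ i ∈ range n, x i ^ 2) * (∑ i ∈ range n, y i ^ 2) +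
        (∑ i ∈ range n, x i * y i) ^ 2) -
        (G.length : ℝ) * (G.map (fun g => gev x y g ^ 2)).sum) := by
  unfold lforms
  rw [S_append, S_extra, S_forms x y x y n G hG, sum_bev]
  have ea : ∑ i ∈ range n, x i * x i = ∑ i ∈ range n, x i ^ 2 :=
    Finset.sum_congr rfl fun i _ => (sq _).symm
  have eb : ∑ i ∈ range n, y i * y i = ∑ i ∈ range n, y i ^ 2 :=
    Finset.sum_congr rfl fun i _ => (sq _).symm
  have ec : ∑ i ∈ range n, y i * x i = ∑ i ∈ range n, x i * y i :=
    Finset.sum_congr rfl fun i _ => mul_comm _ _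
  have ed : (G.map (fun g => gev x y g * gev x y g)).sum =
      (G.map (fun g => gev x y g ^ 2)).sum := by
    congr 1
    exact List.map_congr_left fun g _ => (sq _).symm
  rw [ea, eb, ec, ed]
  ring

/-- A coordinate of the exterior product. -/
theorem wedge_le {n : ℕ} (x y : ℕ → ℝ) {i : ℕ} (hi : i < n) :
    (x i * y 0 - x 0 * y i) ^ 2 ≤ (∑ i ∈ range n, x i ^ 2) * (∑ i ∈ range n, y i ^ 2) -
      (∑ i ∈ range n, x i * y i) ^ 2 := by
  have hn0 : 0 < n := by omega
  have h1 : ∑ k ∈ range n, ∑ l ∈ range n, (x k * y l - x l * y k) ^ 2 =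
      2 * ((∑ i ∈ range n, x i ^ 2) * (∑ i ∈ range n, y i ^ 2) -
      (∑ i ∈ range n, x i * y i) ^ 2) := by
    have e : ∀ k l : ℕ, (x k * y l - x l * y k) ^ 2 =
        x k ^ 2 * y l ^ 2 + y k ^ 2 * x l ^ 2 - 2 * (x k * y k) * (x l * y l) := by
      intro k l; ring
    simp_rw [e, Finset.sum_sub_distrib, Finset.sum_add_distrib, ← Finset.mul_sum,
      ← Finset.sum_mul]
    rw [← Finset.mul_sum]
    ring
  set g : ℕ → ℝ := fun k => ∑ l ∈ range n, (x k * y l - x l * y k) ^ 2 with hg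
  have g0 : ∀ k, 0 ≤ g k := fun k => Finset.sum_nonneg fun _ _ => sq_nonneg _
  have hgi : (x i * y 0 - x 0 * y i) ^ 2 ≤ g i :=
    Finset.single_le_sum (f := fun l => (x i * y l - x l * y i) ^ 2) (fun _ _ => sq_nonneg _)
      (Finset.mem_range.2 hn0)
  rcases Nat.eq_zero_or_pos i with h0 | h0
  · have h2 := Finset.sum_nonneg fun k (_ : k ∈ range n) => g0 k
    rw [h1] at h2
    have e : x i * y 0 - x 0 * y i = 0 := by rw [h0]; ring
    rw [e]
    linarith
  · have hg0' : (x i * y 0 - x 0 * y i) ^ 2 ≤ g 0 := by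
      have := Finset.single_le_sum (f := fun l => (x 0 * y l - x l * y 0) ^ 2)
        (fun _ _ => sq_nonneg _) (Finset.mem_range.2 hi)
      have e : (x i * y 0 - x 0 * y i) ^ 2 = (x 0 * y i - x i * y 0) ^ 2 := by ring
      rw [e]
      exact this
    have h3 : g 0 + g i ≤ ∑ k ∈ range n, g k := by
      have h4 : ({0, i} : Finset ℕ) ⊆ range n := by
        intro k hk
        rw [Finset.mem_insert, Finset.mem_singleton] at hk
        rw [Finset.mem_range]
        omega
      have h5 := Finset.sum_le_sum_of_subset_of_nonneg h4 (fun k _ _ => g0 k)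
      rwa [Finset.sum_pair (by omega)] at h5
    rw [h1] at h3
    linarith

theorem le_sum_map {G : List QC} {φ : QC → ℝ} (h0 : ∀ g, 0 ≤ φ g) {g : QC} (hg : g ∈ G) :
    φ g ≤ (G.map φ).sum :=
  List.single_le_sum (fun a ha => by
    obtain ⟨b, _, rfl⟩ := List.mem_map.1 ha
    exact h0 b) _ (List.mem_map.2 ⟨g, hg, rfl⟩)

/-- Normalization: a point at which the bound is exceeded gives approximate solutions. -/
theorem near_of_exceed {n d : ℕ} {G : List QC} (hG : ∀ g ∈ G, GOk n g) (hne : G ≠ [])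
    (hn0 : 0 < n) (hnd : n ≤ d) {x y : ℕ → ℝ} (hx : ∑ i ∈ range d, x i ^ 2 = 1)
    (hy : ∑ i ∈ range d, y i ^ 2 = 1) (h : (48 * (G.length : ℝ)) ^ 2 < S x y x y (lforms n G)) :
    ∃ X Y : ℕ → ℝ, X 0 = 1 ∧ Y 0 = 1 ∧ (∀ i < n, |X i - Y i| ≤ 1 / 16) ∧
      ∀ g ∈ G, |gev X Y g| < 2 := by
  have hm : (1 : ℝ) ≤ G.length := by
    have : 0 < G.length := List.length_pos_iff.2 hne
    exact_mod_cast this
  rw [S_lforms n G hG] at h
  have hw := fun i (hi : i < n) => wedge_le x y hi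
  have hsub : range n ⊆ range d := Finset.range_subset_range.2 hnd
  have ha1 : ∑ i ∈ range n, x i ^ 2 ≤ 1 := by
    rw [← hx]
    exact Finset.sum_le_sum_of_subset_of_nonneg hsub (fun _ _ _ => sq_nonneg _)
  have hb1 : ∑ i ∈ range n, y i ^ 2 ≤ 1 := by
    rw [← hy]
    exact Finset.sum_le_sum_of_subset_of_nonneg hsub (fun _ _ _ => sq_nonneg _)
  have ha0 : 0 ≤ ∑ i ∈ range n, x i ^ 2 := Finset.sum_nonneg (fun _ _ => sq_nonneg _)
  have hb0 : 0 ≤ ∑ i ∈ range n, y i ^ 2 := Finset.sum_nonneg (fun _ _ => sq_nonneg _)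
  have hQ := fun g (hg : g ∈ G) => le_sum_map (φ := fun g => gev x y g ^ 2)
    (fun g => sq_nonneg (gev x y g)) hg
  have hQ0 : 0 ≤ (G.map (fun g => gev x y g ^ 2)).sum :=
    List.sum_nonneg fun a ha => by
      obtain ⟨b, _, rfl⟩ := List.mem_map.1 ha
      exact sq_nonneg _
  generalize (G.map (fun g => gev x y g ^ 2)).sum = Q at h hQ hQ0
  generalize ∑ i ∈ range n, x i ^ 2 = a at h hw ha1 ha0
  generalize ∑ i ∈ range n, y i ^ 2 = b at h hw hb1 hb0
  generalize ∑ i ∈ range n, x i * y i = c at h hw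
  generalize (G.length : ℝ) = m at h hm
  have hab : a * b ≤ 1 := by nlinarith
  -- the main inequality
  have hmain : 1152 * (a * b - c ^ 2) + Q < 4 * (x 0 * y 0) ^ 2 := by
    have h1 : m * (1152 * m * (2 - (a * b + c ^ 2)) + Q) < m * (4 * (x 0 * y 0) ^ 2) := by
      nlinarith [h]
    have h2 := lt_of_mul_lt_mul_left h1 (by linarith)
    have h3 : a * b - c ^ 2 ≤ 2 - (a * b + c ^ 2) := by linarith
    have h4 : 0 ≤ a * b - c ^ 2 := by
      have := hw 0 hn0
      nlinarith [sq_nonneg (x 0 * y 0 - x 0 * y 0)]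
    have h5 : 1152 * (a * b - c ^ 2) ≤ 1152 * m * (2 - (a * b + c ^ 2)) := by
      have : 1 * (a * b - c ^ 2) ≤ m * (2 - (a * b + c ^ 2)) :=
        mul_le_mul hm h3 h4 (by linarith)
      linarith
    linarith
  have hw0 : 0 ≤ a * b - c ^ 2 := by
    have := hw 0 hn0
    nlinarith [sq_nonneg (x 0 * y 0 - x 0 * y 0)]
  have hp : 0 < (x 0 * y 0) ^ 2 := by linarith
  have hp0 : x 0 * y 0 ≠ 0 := by
    intro h0
    rw [h0] at hp
    norm_num at hp
  have hx0 : x 0 ≠ 0 := left_ne_zero_of_mul hp0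
  have hy0 : y 0 ≠ 0 := right_ne_zero_of_mul hp0
  refine ⟨fun i => x i / x 0, fun i => y i / y 0, div_self hx0, div_self hy0, ?_, ?_⟩
  · intro i hi
    have h1 := hw i hi
    have e : x i / x 0 - y i / y 0 = (x i * y 0 - x 0 * y i) / (x 0 * y 0) := by
      field_simp
    rw [e]
    apply abs_le_of_sq_le_sq _ (by norm_num)
    rw [div_pow, div_le_iff₀ hp]
    nlinarith
  · intro g hg
    have h1 := hQ g hg
    have e : gev (fun i => x i / x 0) (fun i => y i / y 0) g = gev x y g / (x 0 * y 0) := by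
      have eb : ∀ p : ℕ × ℕ, bev (fun i => x i / x 0) (fun i => y i / y 0) p =
          bev x y p / (x 0 * y 0) := by
        intro p
        unfold bev
        field_simp
      unfold gev tev
      rw [eb, eb, eb]
      ring
    rw [e]
    apply abs_lt_of_sq_lt_sq _ (by norm_num)
    rw [div_pow, div_lt_iff₀ hp]
    linarith

/-- Exact solutions exceed the bound. -/
theorem exceed_of_exact {n d : ℕ} {G : List QC} (hG : ∀ g ∈ G, GOk n g) (hne : G ≠ [])
    (hn0 : 0 < n) (hnd : n ≤ d) {x₀ : ℕ → ℝ} (h0 : x₀ 0 = 1) (hg₀ : ∀ g ∈ G, gev x₀ x₀ g = 0) :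
    ∃ x y : ℕ → ℝ, ∑ i ∈ range d, x i ^ 2 = 1 ∧ ∑ i ∈ range d, y i ^ 2 = 1 ∧
      (48 * (G.length : ℝ)) ^ 2 < S x y x y (lforms n G) := by
  have hm : (0 : ℝ) < G.length := by
    have : 0 < G.length := List.length_pos_iff.2 hne
    exact_mod_cast this
  set s := ∑ i ∈ range n, x₀ i ^ 2 with hs
  have hs0 : 0 < s := by
    have := Finset.single_le_sum (f := fun i => x₀ i ^ 2) (fun i _ => sq_nonneg _)
      (Finset.mem_range.2 hn0)
    simp only [h0] at this
    linarith
  have hr : Real.sqrt s ^ 2 = s := Real.sq_sqrt hs0.le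
  have hr0 : 0 < Real.sqrt s := Real.sqrt_pos.2 hs0
  set r := Real.sqrt s with hrdef
  let x : ℕ → ℝ := fun i => if i < n then x₀ i / r else 0
  have hxn : ∀ i < n, x i = x₀ i / r := fun i hi => by simp [x, hi]
  have hxo : ∀ i, n ≤ i → x i = 0 := fun i hi => by simp [x, not_lt.2 hi]
  have hx : ∑ i ∈ range n, x i ^ 2 = 1 := by
    have : ∀ i ∈ range n, x i ^ 2 = x₀ i ^ 2 / s := by
      intro i hi
      rw [hxn i (Finset.mem_range.1 hi), div_pow, hr]
    rw [Finset.sum_congr rfl this, ← Finset.sum_div, ← hs, div_self hs0.ne']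
  have hxd : ∑ i ∈ range d, x i ^ 2 = 1 := by
    rw [← hx]
    symm
    apply Finset.sum_subset (Finset.range_subset_range.2 hnd)
    intro i _ hi
    rw [hxo i (not_lt.1 (fun h => hi (Finset.mem_range.2 h)))]
    ring
  refine ⟨x, x, hxd, hxd, ?_⟩
  rw [S_lforms n G hG]
  have hQ : (G.map (fun g => gev x x g ^ 2)).sum = 0 := by
    apply List.sum_eq_zero
    intro a ha
    obtain ⟨g, hg, rfl⟩ := List.mem_map.1 ha
    have e : gev x x g = gev x₀ x₀ g / (r * r) := by
      obtain ⟨⟨a1, a2, a3⟩, ⟨b1, b2, b3⟩, ⟨c1, c2, c3⟩⟩ := hG g hg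
      unfold gev tev bev
      rw [hxn _ a2, hxn _ a3, hxn _ b2, hxn _ b3, hxn _ c2, hxn _ c3]
      field_simp
    rw [e, hg₀ g hg]
    simp
  have e2 : ∑ i ∈ range n, x i * x i = 1 := by
    rw [← hx]; exact Finset.sum_congr rfl fun i _ => (sq _).symm
  rw [hQ, hx, e2]
  have hx0 : x 0 = 1 / r := by rw [hxn 0 hn0, h0]
  have hpos : 0 < (x 0 * x 0) ^ 2 := by
    rw [hx0]; positivity
  nlinarith [mul_pos hm hpos]

theorem fok_lforms {n : ℕ} (hn0 : 0 < n) {G : List QC} (hG : ∀ g ∈ G, GOk n g) :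
    ∀ f ∈ lforms n G, FOk n f := by
  intro f hf
  unfold lforms at hf
  rw [List.mem_append, List.mem_map] at hf
  rcases hf with ⟨_, _, rfl⟩ | hf
  · intro t ht
    simp only [List.mem_cons, List.not_mem_nil, or_false] at ht
    subst ht
    exact ⟨hn0, hn0⟩
  · exact fok_forms hG f hf

/-- The forms of a system of constraints. -/
def lf (T : List ER.Con) : List (List QT) := lforms (kn T) (ksys T)

/-- The dimension of the tensor. -/
def dimE (T : List ER.Con) : ℕ := kn T + (lf T).length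

/-- The tensor of a system of constraints. -/
def tenE (T : List ER.Con) : List (List (List ℚ)) := tenL (dimE T) (lf T)

/-- The bound of a system of constraints. -/
def sigE (T : List ER.Con) : ℚ := (((48 * (ksys T).length : ℕ) : ℤ) : ℚ)

/-- The instance. -/
def instE (S₀ : List ER.Con) : List (List (List ℚ)) × ℚ := (tenE (bsys S₀), sigE (bsys S₀))

theorem isEx_congr {d : ℕ} {t t' : ℕ → ℕ → ℕ → ℝ} {σ : ℝ}
    (h : ∀ i < d, ∀ j < d, ∀ k < d, t i j k = t' i j k) : IsEx d t σ ↔ IsEx d t' σ := by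
  have key : ∀ x y z : ℕ → ℝ, ∑ i ∈ range d, ∑ j ∈ range d, ∑ k ∈ range d,
      t i j k * x i * y j * z k = ∑ i ∈ range d, ∑ j ∈ range d, ∑ k ∈ range d,
      t' i j k * x i * y j * z k := fun x y z =>
    Finset.sum_congr rfl fun i hi => Finset.sum_congr rfl fun j hj =>
      Finset.sum_congr rfl fun k hk => by
        rw [h i (Finset.mem_range.1 hi) j (Finset.mem_range.1 hj) k (Finset.mem_range.1 hk)]
  unfold IsEx
  simp_rw [key]

theorem exceed_tenL (d : ℕ) (L : List (List QT)) (q : ℚ) (hq : 0 < q) :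
    SpectralNormExceed (tenL d L, q) ↔ IsEx d (fun i j k => (ten L i j k : ℝ)) (q : ℝ) := by
  unfold SpectralNormExceed
  have h3 : (tenL d L).length = d := length_tenL _ _
  have hq' : (0 : ℝ) ≤ (q : ℝ) := by exact_mod_cast hq.le
  have h4 := exceed_iff (d := (tenL d L).length)
    (fun i j k => ((entry (tenL d L) i j k : ℚ) : ℝ)) hq'
  simp only [h4]
  rw [h3]
  have key := isEx_congr (d := d) (t := fun i j k => (ten L i j k : ℝ))
    (t' := fun i j k => ((entry (tenL d L) i j k : ℚ) : ℝ)) (σ := (q : ℝ))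
    (fun i hi j hj k hk => by
      show (ten L i j k : ℝ) = ((entry (tenL d L) i j k : ℚ) : ℝ)
      rw [entry_tenL hi hj hk]
      push_cast
      rfl)
  rw [key]
  exact ⟨fun h => h.2.2, fun h => ⟨isCube_tenL _ _, hq, h⟩⟩

/-- **Correctness of the reduction.** -/
theorem sat_iff_exceed (S₀ : List ER.Con) : Sat S₀ ↔ SpectralNormExceed (instE S₀) := by
  have hne := ksys_ne_nil (bsys S₀)
  have hok := ksys_ok (bsys S₀)
  have hn0 : 0 < kn (bsys S₀) := by unfold kn; omega
  have hpos : 0 < (ksys (bsys S₀)).length := List.length_pos_iff.2 hne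
  have h2 : (0 : ℚ) < sigE (bsys S₀) := by
    unfold sigE
    exact_mod_cast (by omega : 0 < 48 * (ksys (bsys S₀)).length)
  have h4 : ((sigE (bsys S₀) : ℚ) : ℝ) = 48 * ((ksys (bsys S₀)).length : ℝ) := by
    unfold sigE
    push_cast
    ring
  have hfok : ∀ k, FOk (dimE (bsys S₀)) ((lf (bsys S₀)).getD k []) := fun k t ht => by
    have := fok_getD (fok_lforms hn0 hok) k t ht
    unfold dimE
    exact ⟨by omega, by omega⟩
  unfold instE tenE
  rw [exceed_tenL _ _ _ h2, isEx_ten hfok (by unfold dimE; omega) (by rw [h4]; positivity), h4]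
  constructor
  · intro h
    obtain ⟨w, hw, hc⟩ := bsys_of_sat h
    obtain ⟨x, hx0, hx⟩ := exact_of_holds hw hc
    exact exceed_of_exact hok hne hn0 (by unfold dimE; omega) hx0 hx
  · rintro ⟨x, y, hx, hy, h⟩
    obtain ⟨X, Y, hX, hY, h1, h5⟩ := near_of_exceed hok hne hn0
      (show kn (bsys S₀) ≤ dimE (bsys S₀) by unfold dimE; omega) hx hy h
    obtain ⟨w', hw'⟩ := holds_of_near (bsys S₀) hX hY h1 h5
    exact sat_of_bsys hw'

end Pool.Agent.N586.SN
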