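import Pool.Agent.N586.SN.Ex
import Pool.Agent.H78R3.TSV.Red
import Pool.Agent.ER.GapSys

/-!
# The homogeneous system with a chain of growing values
-/

namespace Pool.Agent.N586.SN

open Finset Pool.Agent.NPC Pool.Agent.NPC.ER Pool.Agent.H78R3.TSV

/-- The quadratic constraint of a constraint on the scaled values; `U` is the index of the large
scale. -/
def kcon (V : List ℕ) (U : ℕ) : ER.Con → QC
  | ER.Con.one i => ((8, ix V i, 0), (-1, U, 0), (0, 0, 0))
  | ER.Con.add i j k => ((1, ix V i, 0), (1, ix V j, 0), (-1, ix V k, 0))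
  | ER.Con.mul i j k => ((1, ix V i, ix V j), (-1, ix V k, U), (0, 0, 0))

/-- The bound `x² + s² = U²`. -/
def kslack (N U r : ℕ) : QC := ((1, r + 1, r + 1), (1, N + 1 + r, N + 1 + r), (-1, U, U))

/-- The first value of the chain is `8`. -/
def chain0 (N : ℕ) : QC := ((1, 2 * N + 1, 0), (-8, 0, 0), (0, 0, 0))

/-- Every value of the chain is the square of the previous one. -/
def chainS (N j : ℕ) : QC := ((1, 2 * N + 1 + (j + 1), 0), (-1, 2 * N + 1 + j, 2 * N + 1 + j),
  (0, 0, 0))

/-- The length of the chain. -/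
def cK (T : List ER.Con) : ℕ := gapK T.length + 2

/-- The index of the large scale. -/
def uU (T : List ER.Con) : ℕ := 2 * (svars T).length + 1 + cK T

/-- The number of variables. -/
def kn (T : List ER.Con) : ℕ := uU T + 1

/-- The system. -/
def ksys (T : List ER.Con) : List QC :=
  chain0 (svars T).length :: ((List.range (cK T)).map (chainS (svars T).length) ++
    (T.map (kcon (svars T) (uU T)) ++
      (List.range (svars T).length).map (kslack (svars T).length (uU T))))

theorem ksys_ne_nil (T : List ER.Con) : ksys T ≠ [] := by simp [ksys]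

theorem ksys_ok (T : List ER.Con) : ∀ g ∈ ksys T, GOk (kn T) g := by
  intro g hg
  unfold ksys at hg
  rw [List.mem_cons, List.mem_append, List.mem_append, List.mem_map, List.mem_map,
    List.mem_map] at hg
  rcases hg with rfl | ⟨j, hj, rfl⟩ | ⟨c, hc, rfl⟩ | ⟨r, hr, rfl⟩
  · refine ⟨⟨by simp [chain0], ?_, ?_⟩, ⟨by simp [chain0], ?_, ?_⟩, ⟨by simp [chain0], ?_, ?_⟩⟩ <;>
      simp only [chain0, kn, uU] <;> omega
  · have := List.mem_range.1 hj
    refine ⟨⟨by simp [chainS], ?_, ?_⟩, ⟨by simp [chainS], ?_, ?_⟩, ⟨by simp [chainS], ?_, ?_⟩⟩ <;>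
      simp only [chainS, kn, uU] <;> omega
  · cases c with
    | one i =>
      have h1 := ix_lt hc (i := i) (by simp [Con.vars])
      refine ⟨⟨by simp [kcon], ?_, ?_⟩, ⟨by simp [kcon], ?_, ?_⟩, ⟨by simp [kcon], ?_, ?_⟩⟩ <;>
        simp only [kcon, kn, uU] <;> omega
    | add i j k =>
      have h1 := ix_lt hc (i := i) (by simp [Con.vars])
      have h2 := ix_lt hc (i := j) (by simp [Con.vars])
      have h3 := ix_lt hc (i := k) (by simp [Con.vars])
      refine ⟨⟨by simp [kcon], ?_, ?_⟩, ⟨by simp [kcon], ?_, ?_⟩, ⟨by simp [kcon], ?_, ?_⟩⟩ <;>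
        simp only [kcon, kn, uU] <;> omega
    | mul i j k =>
      have h1 := ix_lt hc (i := i) (by simp [Con.vars])
      have h2 := ix_lt hc (i := j) (by simp [Con.vars])
      have h3 := ix_lt hc (i := k) (by simp [Con.vars])
      refine ⟨⟨by simp [kcon], ?_, ?_⟩, ⟨by simp [kcon], ?_, ?_⟩, ⟨by simp [kcon], ?_, ?_⟩⟩ <;>
        simp only [kcon, kn, uU] <;> omega
  · have := List.mem_range.1 hr
    refine ⟨⟨by simp [kslack], ?_, ?_⟩, ⟨by simp [kslack], ?_, ?_⟩, ⟨by simp [kslack], ?_, ?_⟩⟩ <;>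
        simp only [kslack, kn, uU] <;> omega

/-- The lower bound for the values of the chain. -/
theorem chain_lower {n : ℕ} {N K : ℕ} (hn : 2 * N + 1 + K < n) {X Y : ℕ → ℝ} (X0 : X 0 = 1)
    (Y0 : Y 0 = 1) (hXY : ∀ i < n, |X i - Y i| ≤ 1 / 16)
    (h0 : |gev X Y (chain0 N)| < 2) (hS : ∀ j < K, |gev X Y (chainS N j)| < 2) :
    ∀ j ≤ K, (2 : ℝ) ^ 2 ^ j + 3 ≤ X (2 * N + 1 + j) := by
  intro j
  induction j with
  | zero =>
    intro _
    have h1 := hXY (2 * N + 1) (by omega)
    simp only [gev, tev, bev, chain0, X0, Y0] at h0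
    rw [abs_le] at h1
    rw [abs_lt] at h0
    push_cast at h0
    simp only [pow_zero, pow_one, Nat.add_zero]
    linarith [h0.1, h1.1]
  | succ j ih =>
    intro hj
    have h2 := ih (by omega)
    have h1 := hXY (2 * N + 1 + j) (by omega)
    have h1' := hXY (2 * N + 1 + (j + 1)) (by omega)
    have h3 := hS j (by omega)
    simp only [gev, tev, bev, chainS, X0, Y0] at h3
    rw [abs_le] at h1 h1'
    rw [abs_lt] at h3
    push_cast at h3
    set a := X (2 * N + 1 + j) with ha
    set b := Y (2 * N + 1 + j) with hb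
    set a' := X (2 * N + 1 + (j + 1)) with ha'
    set b' := Y (2 * N + 1 + (j + 1)) with hb'
    set s : ℝ := (2 : ℝ) ^ 2 ^ j with hs
    have hs2 : (2 : ℝ) ≤ s := by
      rw [hs]
      calc (2 : ℝ) = 2 ^ 1 := by norm_num
        _ ≤ 2 ^ 2 ^ j := pow_le_pow_right₀ (by norm_num) Nat.one_le_two_pow
    have hss : (2 : ℝ) ^ 2 ^ (j + 1) = s * s := by
      rw [hs, ← pow_add]; congr 1; ring
    rw [hss]
    have h4 : a - 1 / 16 ≤ b := by linarith [h1.2]
    have h5 : a * (a - 1 / 16) ≤ a * b := mul_le_mul_of_nonneg_left h4 (by linarith)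
    have h6 : (s + 3) * (s + 3 - 1 / 16) ≤ a * (a - 1 / 16) :=
      mul_le_mul h2 (by linarith) (by linarith) (by linarith)
    nlinarith [h3.1, h1'.1, h5, h6]

theorem pow_tower (g : ℕ) : (2 : ℝ) ^ 2 ^ (g + 2) =
    (2 ^ 2 ^ g) * (2 ^ 2 ^ g) * ((2 ^ 2 ^ g) * (2 ^ 2 ^ g)) := by
  have h : 2 ^ (g + 2) = (2 ^ g + 2 ^ g) + (2 ^ g + 2 ^ g) := by
    rw [pow_succ, pow_succ]; omega
  rw [h, pow_add, pow_add]

theorem two_le_tower (g : ℕ) : (2 : ℝ) ≤ 2 ^ 2 ^ g := by
  calc (2 : ℝ) = 2 ^ 1 := by norm_num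
    _ ≤ _ := pow_le_pow_right₀ (by norm_num) Nat.one_le_two_pow

theorem big_of_chain {g : ℕ} {u : ℝ} (h : (2 : ℝ) ^ 2 ^ (g + 2) + 3 ≤ u) :
    5 * 2 ^ 2 ^ g ≤ u := by
  rw [pow_tower] at h
  have h2 := two_le_tower g
  generalize (2 : ℝ) ^ 2 ^ g = B at h h2 ⊢
  have h3 : (8 : ℝ) ≤ B * (B * B) := by nlinarith [mul_self_nonneg (B - 2)]
  have h4 : 8 * B ≤ B * (B * B) * B := mul_le_mul_of_nonneg_right h3 (by linarith)
  have h5 : B * B * (B * B) = B * (B * B) * B := by ring
  rw [h5] at h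
  linarith

/-- The bound from the slack variables. -/
theorem slack_bound {u v a b s s' : ℝ} (hu1 : 10 ≤ u) (d1 : |a - b| ≤ 1 / 16)
    (d2 : |s - s'| ≤ 1 / 16) (d3 : |u - v| ≤ 1 / 16)
    (h1 : |1 * (a * b + a * b) + 1 * (s * s' + s * s') + -1 * (u * v + u * v)| < 2) :
    |a| ≤ u + 2 := by
  rw [abs_lt] at h1
  have e1 : |a * (a - b)| ≤ |a| / 16 := by
    rw [abs_mul]
    nlinarith [abs_nonneg a]
  have e2 : |s * (s - s')| ≤ |s| / 16 := by
    rw [abs_mul]
    nlinarith [abs_nonneg s]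
  have e3 : |u * (u - v)| ≤ u / 16 := by
    rw [abs_mul, abs_of_nonneg (by linarith : 0 ≤ u)]
    nlinarith
  rw [abs_le] at e1 e2 e3
  have f1 : a * a = |a| * |a| := (abs_mul_abs_self a).symm
  have f2 : s * s = |s| * |s| := (abs_mul_abs_self s).symm
  have f3 : 0 ≤ (|s| - 1 / 32) * (|s| - 1 / 32) := mul_self_nonneg _
  by_contra hcon
  push Not at hcon
  have f4 : (u + 2) * (u + 2 - 1 / 16) ≤ |a| * (|a| - 1 / 16) :=
    mul_le_mul hcon.le (by linarith) (by linarith) (abs_nonneg a)
  nlinarith [h1.2, e1.2, e2.2, e3.1]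

/-- The error of a product. -/
theorem mul_bound {u v a b c a' b' c' : ℝ} (hu1 : 10 ≤ u) (d1 : |a - a'| ≤ 1 / 16)
    (d2 : |b - b'| ≤ 1 / 16) (d4 : |c - c'| ≤ 1 / 16) (d3 : |u - v| ≤ 1 / 16)
    (b1 : |a| ≤ u + 2) (b2 : |b| ≤ u + 2) (b4 : |c| ≤ u + 2)
    (h1 : |(a * b' + b * a') - (c * v + u * c')| < 2) :
    |a / (u + 2) * (b / (u + 2)) - c / (u + 2)| ≤ 5 / (u + 2) := by
  set W := u + 2 with hW
  have hW0 : 0 < W := by linarith
  have e : a / W * (b / W) - c / W = (a * b - c * W) / (W * W) := by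
    field_simp
  rw [e, abs_div, abs_of_pos (by positivity : 0 < W * W), div_le_div_iff₀
    (by positivity) hW0]
  have m1 : |a * (b - b')| ≤ W / 16 := by
    rw [abs_mul]
    calc |a| * |b - b'| ≤ W * (1 / 16) := mul_le_mul b1 d2 (abs_nonneg _) hW0.le
      _ = _ := by ring
  have m2 : |b * (a - a')| ≤ W / 16 := by
    rw [abs_mul]
    calc |b| * |a - a'| ≤ W * (1 / 16) := mul_le_mul b2 d1 (abs_nonneg _) hW0.le
      _ = _ := by ring
  have m3 : |c * (u - v)| ≤ W / 16 := by
    rw [abs_mul]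
    calc |c| * |u - v| ≤ W * (1 / 16) := mul_le_mul b4 d3 (abs_nonneg _) hW0.le
      _ = _ := by ring
  have m4 : |u * (c - c')| ≤ W / 16 := by
    rw [abs_mul, abs_of_nonneg (by linarith : 0 ≤ u)]
    calc u * |c - c'| ≤ W * (1 / 16) :=
          mul_le_mul (by linarith) d4 (abs_nonneg _) hW0.le
      _ = _ := by ring
  rw [abs_le] at m1 m2 m3 m4 b4
  rw [abs_lt] at h1
  have m5 : |a * b - c * W| ≤ 3 * W := by
    have k1 : 2 * (a * b - c * W) = ((a * b' + b * a') - (c * v + u * c')) + a * (b - b') +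
        b * (a - a') - c * (u - v) - u * (c - c') - 4 * c := by rw [hW]; ring
    rw [abs_le]
    constructor <;> linarith [h1.1, h1.2, m1.1, m1.2, m2.1, m2.2, m3.1, m3.2, m4.1, m4.2,
      b4.1, b4.2]
  calc |a * b - c * W| * W ≤ 3 * W * W := mul_le_mul_of_nonneg_right m5 hW0.le
    _ ≤ 5 * (W * W) := by nlinarith [mul_pos hW0 hW0]

/-- **From approximate solutions to solutions.** -/
theorem holds_of_near (T : List ER.Con) {X Y : ℕ → ℝ} (X0 : X 0 = 1) (Y0 : Y 0 = 1)
    (hXY : ∀ i < kn T, |X i - Y i| ≤ 1 / 16)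
    (hg : ∀ g ∈ ksys T, |gev X Y g| < 2) : ∃ w', ∀ c ∈ T, c.HoldsC (1 / 8) w' := by
  have hkn : kn T = 2 * (svars T).length + 1 + cK T + 1 := rfl
  have hU : uU T = 2 * (svars T).length + 1 + cK T := rfl
  have hch := chain_lower (n := kn T) (N := (svars T).length) (K := cK T) (by omega) X0 Y0 hXY
    (hg _ (by simp [ksys])) (fun j hj => hg _ (by
      unfold ksys
      refine List.mem_cons_of_mem _ (List.mem_append_left _ ?_)
      exact List.mem_map.2 ⟨j, List.mem_range.2 hj, rfl⟩)) (cK T) le_rfl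
  rw [← hU] at hch
  have hbig : 5 * 2 ^ 2 ^ gapK T.length ≤ X (uU T) := big_of_chain hch
  have hB1 := two_le_tower (gapK T.length)
  have hu1 : (10 : ℝ) ≤ X (uU T) := by linarith
  have hW0 : 0 < X (uU T) + 2 := by linarith
  have d3 := hXY (uU T) (by omega)
  -- the values are bounded
  have hbd : ∀ r < (svars T).length, |X (r + 1)| ≤ X (uU T) + 2 := by
    intro r hr
    have h1 := hg (kslack (svars T).length (uU T) r) (by
      unfold ksys
      refine List.mem_cons_of_mem _ (List.mem_append_right _ (List.mem_append_right _ ?_))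
      exact List.mem_map.2 ⟨r, List.mem_range.2 hr, rfl⟩)
    simp only [gev, tev, bev, kslack] at h1
    push_cast at h1
    exact slack_bound hu1 (hXY (r + 1) (by omega)) (hXY ((svars T).length + 1 + r) (by omega)) d3 h1
  have hbd' : ∀ i ∈ svars T, |X (ix (svars T) i)| ≤ X (uU T) + 2 :=
    fun i hi => hbd _ (List.idxOf_lt_length_of_mem hi)
  have hix : ∀ i ∈ svars T, ix (svars T) i < kn T := by
    intro i hi
    have := List.idxOf_lt_length_of_mem hi
    unfold ix
    omega
  apply holds_of_approx (S := T) (w := fun i => X (ix (svars T) i) / (X (uU T) + 2))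
  · intro i hi
    rw [abs_div, abs_of_pos hW0, div_le_one hW0]
    exact hbd' i hi
  · intro c hc
    have key : |c.err (fun i => X (ix (svars T) i) / (X (uU T) + 2))| ≤ 5 / (X (uU T) + 2) := by
      have h1 := hg (kcon (svars T) (uU T) c) (by
        unfold ksys
        refine List.mem_cons_of_mem _ (List.mem_append_right _ (List.mem_append_left _ ?_))
        exact List.mem_map.2 ⟨c, hc, rfl⟩)
      cases c with
      | one i =>
        have hi := mem_svars hc (i := i) (by simp [Con.vars])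
        have d1 := hXY _ (hix i hi)
        simp only [gev, tev, bev, kcon, X0, Y0] at h1
        push_cast at h1
        simp only [Con.err]
        generalize X (ix (svars T) i) = a at h1 d1 ⊢
        generalize Y (ix (svars T) i) = a' at h1 d1
        generalize X (uU T) = u at *
        generalize Y (uU T) = v at *
        have e : 8 * (a / (u + 2)) - 1 = (8 * a - (u + 2)) / (u + 2) := by
          field_simp
        rw [e, abs_div, abs_of_pos hW0]
        apply div_le_div_of_nonneg_right _ hW0.le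
        rw [abs_le] at d1 d3 ⊢
        rw [abs_lt] at h1
        constructor <;> linarith [h1.1, h1.2, d1.1, d1.2, d3.1, d3.2]
      | add i j k =>
        have hi := mem_svars hc (i := i) (by simp [Con.vars])
        have hj := mem_svars hc (i := j) (by simp [Con.vars])
        have hk := mem_svars hc (i := k) (by simp [Con.vars])
        have d1 := hXY _ (hix i hi)
        have d2 := hXY _ (hix j hj)
        have d4 := hXY _ (hix k hk)
        simp only [gev, tev, bev, kcon, X0, Y0] at h1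
        push_cast at h1
        simp only [Con.err]
        generalize X (ix (svars T) i) = a at h1 d1 ⊢
        generalize Y (ix (svars T) i) = a' at h1 d1
        generalize X (ix (svars T) j) = b at h1 d2 ⊢
        generalize Y (ix (svars T) j) = b' at h1 d2
        generalize X (ix (svars T) k) = c at h1 d4 ⊢
        generalize Y (ix (svars T) k) = c' at h1 d4
        generalize X (uU T) = u at *
        have e : a / (u + 2) + b / (u + 2) - c / (u + 2) = (a + b - c) / (u + 2) := by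
          field_simp
        rw [e, abs_div, abs_of_pos hW0]
        apply div_le_div_of_nonneg_right _ hW0.le
        rw [abs_le] at d1 d2 d4 ⊢
        rw [abs_lt] at h1
        constructor <;> linarith [h1.1, h1.2, d1.1, d1.2, d2.1, d2.2, d4.1, d4.2]
      | mul i j k =>
        have hi := mem_svars hc (i := i) (by simp [Con.vars])
        have hj := mem_svars hc (i := j) (by simp [Con.vars])
        have hk := mem_svars hc (i := k) (by simp [Con.vars])
        simp only [gev, tev, bev, kcon, X0, Y0] at h1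
        push_cast at h1
        simp only [Con.err]
        refine mul_bound hu1 (hXY _ (hix i hi)) (hXY _ (hix j hj)) (hXY _ (hix k hk)) d3
          (hbd' i hi) (hbd' j hj) (hbd' k hk) ?_
        convert h1 using 2
        ring
    calc |c.err (fun i => X (ix (svars T) i) / (X (uU T) + 2))| * 2 ^ 2 ^ gapK T.length
        ≤ 5 / (X (uU T) + 2) * 2 ^ 2 ^ gapK T.length :=
          mul_le_mul_of_nonneg_right key (by positivity)
      _ = (5 * 2 ^ 2 ^ gapK T.length) / (X (uU T) + 2) := by ring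
      _ ≤ 1 := by
        rw [div_le_one hW0]
        linarith

/-- The exact solution given by small values. -/
noncomputable def exw (V : List ℕ) (K : ℕ) (w : ℕ → ℝ) (i : ℕ) : ℝ :=
  if i = 0 then 1 else if i < V.length + 1 then 8 ^ 2 ^ K * w (V.getD (i - 1) 0) else
    if i < 2 * V.length + 1 then
      8 ^ 2 ^ K * Real.sqrt (1 - w (V.getD (i - (V.length + 1)) 0) ^ 2) else
      8 ^ 2 ^ (i - (2 * V.length + 1))

theorem exw0 (V : List ℕ) (K : ℕ) (w : ℕ → ℝ) : exw V K w 0 = 1 := by simp [exw]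

theorem exw1 (V : List ℕ) (K : ℕ) (w : ℕ → ℝ) {r : ℕ} (hr : r < V.length) :
    exw V K w (r + 1) = 8 ^ 2 ^ K * w (V.getD r 0) := by
  unfold exw
  rw [if_neg (by omega), if_pos (by omega), Nat.add_sub_cancel]

theorem exw2 (V : List ℕ) (K : ℕ) (w : ℕ → ℝ) {r : ℕ} (hr : r < V.length) :
    exw V K w (V.length + 1 + r) = 8 ^ 2 ^ K * Real.sqrt (1 - w (V.getD r 0) ^ 2) := by
  unfold exw
  rw [if_neg (by omega), if_neg (by omega), if_pos (by omega), Nat.add_sub_cancel_left]

theorem exw3 (V : List ℕ) (K : ℕ) (w : ℕ → ℝ) (j : ℕ) :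
    exw V K w (2 * V.length + 1 + j) = 8 ^ 2 ^ j := by
  unfold exw
  rw [if_neg (by omega), if_neg (by omega), if_neg (by omega), Nat.add_sub_cancel_left]

theorem exwi (V : List ℕ) (K : ℕ) (w : ℕ → ℝ) {i : ℕ} (hi : i ∈ V) :
    exw V K w (ix V i) = 8 ^ 2 ^ K * w i := by
  have h1 := List.idxOf_lt_length_of_mem hi
  unfold ix
  rw [exw1 V K w h1, List.getD_eq_getElem _ _ h1, List.getElem_idxOf h1]

theorem gev_kcon (V : List ℕ) (K : ℕ) (w : ℕ → ℝ) {c : ER.Con} (hV : ∀ i ∈ c.vars, i ∈ V)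
    (hh : c.HoldsC (1 / 8) w) :
    gev (exw V K w) (exw V K w) (kcon V (2 * V.length + 1 + K) c) = 0 := by
  have hU := exw3 V K w K
  have h0 := exw0 V K w
  cases c with
  | one i =>
    have e1 := exwi V K w (hV i (by simp [Con.vars]))
    simp only [Con.HoldsC] at hh
    simp only [gev, tev, bev, kcon, e1, h0, hU, hh]
    generalize (8 : ℝ) ^ 2 ^ K = u
    push_cast
    ring
  | add i j k =>
    have e1 := exwi V K w (hV i (by simp [Con.vars]))
    have e2 := exwi V K w (hV j (by simp [Con.vars]))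
    have e3 := exwi V K w (hV k (by simp [Con.vars]))
    simp only [Con.HoldsC] at hh
    simp only [gev, tev, bev, kcon, e1, e2, e3, h0, ← hh]
    generalize (8 : ℝ) ^ 2 ^ K = u
    push_cast
    ring
  | mul i j k =>
    have e1 := exwi V K w (hV i (by simp [Con.vars]))
    have e2 := exwi V K w (hV j (by simp [Con.vars]))
    have e3 := exwi V K w (hV k (by simp [Con.vars]))
    simp only [Con.HoldsC] at hh
    simp only [gev, tev, bev, kcon, e1, e2, e3, h0, hU, ← hh]
    generalize (8 : ℝ) ^ 2 ^ K = u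
    push_cast
    ring

/-- **Exact solutions of the homogeneous system.** -/
theorem exact_of_holds {T : List ER.Con} {w : ℕ → ℝ} (hw : ∀ i, |w i| ≤ 1 / 8)
    (hc : ∀ c ∈ T, c.HoldsC (1 / 8) w) :
    ∃ x : ℕ → ℝ, x 0 = 1 ∧ ∀ g ∈ ksys T, gev x x g = 0 := by
  refine ⟨exw (svars T) (cK T) w, exw0 _ _ _, fun g hg => ?_⟩
  unfold ksys at hg
  rw [List.mem_cons, List.mem_append, List.mem_append, List.mem_map, List.mem_map,
    List.mem_map] at hg
  rcases hg with rfl | ⟨j, hj, rfl⟩ | ⟨c, hcT, rfl⟩ | ⟨r, hr, rfl⟩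
  · have h3 := exw3 (svars T) (cK T) w 0
    rw [Nat.add_zero] at h3
    simp only [gev, tev, bev, chain0, h3, exw0]
    norm_num
  · have h3 := exw3 (svars T) (cK T) w j
    have h4 := exw3 (svars T) (cK T) w (j + 1)
    have h5 : (8 : ℝ) ^ 2 ^ (j + 1) = 8 ^ 2 ^ j * 8 ^ 2 ^ j := by
      rw [← pow_add]; congr 1; rw [pow_succ]; omega
    simp only [gev, tev, bev, chainS, h3, h4, exw0, h5]
    generalize (8 : ℝ) ^ 2 ^ j = u
    push_cast
    ring
  · exact gev_kcon (svars T) (cK T) w (fun i hi => mem_svars hcT hi) (hc c hcT)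
  · have hr := List.mem_range.1 hr
    have hU : exw (svars T) (cK T) w (uU T) = 8 ^ 2 ^ cK T := exw3 _ _ _ _
    simp only [gev, tev, bev, kslack]
    rw [exw1 _ _ _ hr, exw2 _ _ _ hr, hU]
    push_cast
    have h1 : 0 ≤ 1 - w ((svars T).getD r 0) ^ 2 := by
      have := hw ((svars T).getD r 0)
      have h2 : w ((svars T).getD r 0) ^ 2 ≤ (1 / 8) ^ 2 := by
        rw [← sq_abs]
        exact pow_le_pow_left₀ (abs_nonneg _) this 2
      have h3 : ((1 : ℝ) / 8) ^ 2 ≤ 1 := by norm_num
      linarith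
    have h2 := Real.mul_self_sqrt h1
    generalize Real.sqrt (1 - w ((svars T).getD r 0) ^ 2) = s at h2 ⊢
    generalize w ((svars T).getD r 0) = a at h2 ⊢
    generalize (8 : ℝ) ^ 2 ^ cK T = u
    linear_combination (2 * u * u) * h2

end Pool.Agent.N586.SN
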