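import Pool.Agent.N586.SN.Main
import Pool.Agent.H78R3.TSV.Mem

/-!
# The reduction is computable in polynomial time
-/

namespace Pool.Agent.NPC.N586SN

open Pool.Agent.NPC Pool.Agent.NPC.ER Pool.Agent.H78R3.TSV Pool.Agent.N586.SN
  Pool.Agent.NPC.H78TSV Pool.Agent.NPC.H670R2

section

variable {α : Type} [TEnc α]

theorem kcon_eq (V : List ℕ) (U : ℕ) (c : ER.Con) : kcon V U c =
    if c.code.1 = 0 then ((8, ix V c.code.2.1, 0), (-1, U, 0), (0, 0, 0))
    else if c.code.1 = 1 then ((1, ix V c.code.2.1, 0), (1, ix V c.code.2.2.1, 0),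
      (-1, ix V c.code.2.2.2, 0))
    else ((1, ix V c.code.2.1, ix V c.code.2.2.1), (-1, ix V c.code.2.2.2, U), (0, 0, 0)) := by
  cases c <;> rfl

theorem poly_kcon {V : α → List ℕ} {U : α → ℕ} {c : α → ER.Con} (hV : Poly V) (hU : Poly U)
    (hc : Poly c) : Poly (fun a => kcon (V a) (U a) (c a)) := by
  have h0 : Poly (fun a => (c a).code) := poly_con_code hc
  have i1 := poly_ix hV (Poly.fst (Poly.snd h0))
  have i2 := poly_ix hV (Poly.fst (Poly.snd (Poly.snd h0)))
  have i3 := poly_ix hV (Poly.snd (Poly.snd (Poly.snd h0)))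
  have z : Poly (fun _ : α => (0 : ℕ)) := Poly.const 0
  refine (Poly.ite (Poly.decide_eq (Poly.fst h0) (Poly.const 0))
    (Poly.pair (Poly.pair (Poly.const 8) (Poly.pair i1 z))
      (Poly.pair (Poly.pair (Poly.const (-1)) (Poly.pair hU z)) (Poly.const _)))
    (Poly.ite (Poly.decide_eq (Poly.fst h0) (Poly.const 1))
      (Poly.pair (Poly.pair (Poly.const 1) (Poly.pair i1 z))
        (Poly.pair (Poly.pair (Poly.const 1) (Poly.pair i2 z))
          (Poly.pair (Poly.const (-1)) (Poly.pair i3 z))))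
      (Poly.pair (Poly.pair (Poly.const 1) (Poly.pair i1 i2))
        (Poly.pair (Poly.pair (Poly.const (-1)) (Poly.pair i3 hU)) (Poly.const _))))).congr
    fun a => (kcon_eq _ _ _).symm

theorem poly_kslack {N U r : α → ℕ} (hN : Poly N) (hU : Poly U) (hr : Poly r) :
    Poly (fun a => kslack (N a) (U a) (r a)) := by
  have h1 := Poly.succ hr
  have h2 : Poly (fun a => N a + 1 + r a) := Poly.add (Poly.succ hN) hr
  exact Poly.pair (Poly.pair (Poly.const 1) (Poly.pair h1 h1))
    (Poly.pair (Poly.pair (Poly.const 1) (Poly.pair h2 h2))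
      (Poly.pair (Poly.const (-1)) (Poly.pair hU hU)))

theorem poly_chain0 {N : α → ℕ} (hN : Poly N) : Poly (fun a => chain0 (N a)) :=
  Poly.pair (Poly.pair (Poly.const 1) (Poly.pair
    (Poly.add (Poly.mul (Poly.const 2) hN) (Poly.const 1)) (Poly.const 0))) (Poly.const _)

theorem poly_chainS {N j : α → ℕ} (hN : Poly N) (hj : Poly j) :
    Poly (fun a => chainS (N a) (j a)) := by
  have h1 : Poly (fun a => 2 * N a + 1) := Poly.add (Poly.mul (Poly.const 2) hN) (Poly.const 1)
  have h2 : Poly (fun a => 2 * N a + 1 + j a) := Poly.add h1 hj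
  have h3 : Poly (fun a => 2 * N a + 1 + (j a + 1)) := Poly.add h1 (Poly.succ hj)
  exact Poly.pair (Poly.pair (Poly.const 1) (Poly.pair h3 (Poly.const 0)))
    (Poly.pair (Poly.pair (Poly.const (-1)) (Poly.pair h2 h2)) (Poly.const _))

theorem upoly_cK {T : α → List ER.Con} (hT : Poly T) : UPoly (fun a => cK (T a)) :=
  UPoly.add (UPoly.add (UPoly.mul (UPoly.const 11) (UPoly.length hT)) (UPoly.const 7))
    (UPoly.const 2)

theorem upoly_uU {T : α → List ER.Con} (hT : Poly T) : UPoly (fun a => uU (T a)) :=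
  UPoly.add (UPoly.add (UPoly.mul (UPoly.const 2) (UPoly.length (poly_svars hT)))
    (UPoly.const 1)) (upoly_cK hT)

theorem upoly_kn {T : α → List ER.Con} (hT : Poly T) : UPoly (fun a => kn (T a)) :=
  UPoly.add (upoly_uU hT) (UPoly.const 1)

theorem poly_ksys {T : α → List ER.Con} (hT : Poly T) : Poly (fun a => ksys (T a)) := by
  have hV := poly_svars hT
  have hN : Poly (fun a => (svars (T a)).length) := Poly.length hV
  have hU := (upoly_uU hT).toPoly
  refine Poly.cons (poly_chain0 hN) (Poly.append ?_ (Poly.append ?_ ?_))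
  · refine Poly.map (F := fun a j => chainS (svars (T a)).length j) (upoly_cK hT).range ?_
    exact poly_chainS (hN.comp (Poly.fst Poly.id)) (Poly.snd Poly.id)
  · exact Poly.map (F := fun a c => kcon (svars (T a)) (uU (T a)) c) hT
      (poly_kcon (hV.comp (Poly.fst Poly.id)) (hU.comp (Poly.fst Poly.id)) (Poly.snd Poly.id))
  · refine Poly.map (F := fun a r => kslack (svars (T a)).length (uU (T a)) r)
      (UPoly.length hV).range ?_
    exact poly_kslack (hN.comp (Poly.fst Poly.id)) (hU.comp (Poly.fst Poly.id)) (Poly.snd Poly.id)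

theorem poly_lforms {n : α → ℕ} {G : α → List QC} (hn : UPoly n) (hG : Poly G) :
    Poly (fun a => lforms (n a) (G a)) :=
  Poly.append (Poly.map (F := fun _ _ => [((1 : ℤ), ((0 : ℕ), (0 : ℕ)))]) hG (Poly.const _))
    (poly_forms hn hG)

theorem poly_lf {T : α → List ER.Con} (hT : Poly T) : Poly (fun a => lf (T a)) :=
  poly_lforms (upoly_kn hT) (poly_ksys hT)

theorem upoly_dimE {T : α → List ER.Con} (hT : Poly T) : UPoly (fun a => dimE (T a)) :=
  UPoly.add (upoly_kn hT) (UPoly.length (poly_lf hT))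

theorem poly_instE {S₀ : α → List ER.Con} (hS : Poly S₀) : Poly (fun a => instE (S₀ a)) := by
  have hT := poly_bsys hS
  refine Poly.pair (poly_tenL (upoly_dimE hT) (poly_lf hT)) ?_
  exact poly_intToRat (Poly.natCast (Poly.mul (Poly.const 48) (Poly.length (poly_ksys hT))))

end

/-- SPECTRAL-NORM-EXCEED is `∃ℝ`-hard. -/
theorem exceed_hard : ERHard (lang SpectralNormExceed) :=
  ERHard.of_sys (poly_instE Poly.id) sat_iff_exceed

/-- The two problems are complementary on valid inputs. -/
theorem bound_iff (q : List (List (List ℚ)) × ℚ) :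
    SpectralNormBound q ↔ (IsCube q.1 ∧ 0 < q.2) ∧ ¬ SpectralNormExceed q := by
  unfold SpectralNormBound SpectralNormExceed
  constructor
  · rintro ⟨h1, h2, h3⟩
    exact ⟨⟨h1, h2⟩, fun h => absurd h3 (not_le.2 h.2.2)⟩
  · rintro ⟨⟨h1, h2⟩, h3⟩
    exact ⟨h1, h2, not_lt.1 fun h => h3 ⟨h1, h2, h⟩⟩

theorem sat_iff_not_bound (S₀ : List ER.Con) : Sat S₀ ↔ ¬ SpectralNormBound (instE S₀) := by
  rw [sat_iff_exceed, bound_iff]
  have h1 : IsCube (instE S₀).1 := isCube_tenL _ _
  have h2 : 0 < (instE S₀).2 := by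
    have hpos : 0 < (ksys (bsys S₀)).length := List.length_pos_iff.2 (ksys_ne_nil (bsys S₀))
    show 0 < sigE (bsys S₀)
    unfold sigE
    exact_mod_cast (by omega : 0 < 48 * (ksys (bsys S₀)).length)
  tauto

/-- SPECTRAL-NORM-BOUND is `∀ℝ`-hard. -/
theorem bound_hard : ARHard (lang SpectralNormBound) :=
  ARHard.of_sys (poly_instE Poly.id) sat_iff_not_bound

/-! ### Membership -/

open Finset

/-- The formula for the value. -/
def fV (d : ℕ) : Fm :=
  Fm.lt (Tm.var (vs d)) (sumTm ((List.range d).flatMap fun i => (List.range d).flatMap fun j =>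
    (List.range d).map fun k => Tm.mul (Tm.mul (Tm.mul (Tm.var (vw d i j k)) (Tm.var (4 * i)))
      (Tm.var (4 * j + 1))) (Tm.var (4 * k + 2))))

/-- The list of the formulas. -/
def fEx (q : List (List (List ℚ)) × ℚ) : List Fm :=
  fU q.1.length 0 :: fU q.1.length 1 :: fU q.1.length 2 ::
    eqRat (Tm.var (vs q.1.length)) q.2 :: (fEnt q.1 ++ [fV q.1.length])

/-- The formula for valid inputs. -/
def fExc (q : List (List (List ℚ)) × ℚ) : Fm :=
  bif isCubeB q.1 && isPosB q.2 then conj (fEx q) else H670R2.ff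

/-- The formula for the complement. -/
def fNB (q : List (List (List ℚ)) × ℚ) : Fm :=
  bif isCubeB q.1 && isPosB q.2 then conj (fEx q) else H670R2.tt

theorem sum_flatMap3 (n : ℕ) (F : ℕ → ℕ → ℕ → Tm) (v : ℕ → ℝ) :
    (((List.range n).flatMap fun i => (List.range n).flatMap fun j => (List.range n).map fun k =>
      F i j k).map (Tm.eval v)).sum =
      ∑ i ∈ range n, ∑ j ∈ range n, ∑ k ∈ range n, (F i j k).eval v := by
  have h : ∀ l : List ℕ, ((l.flatMap fun i => (List.range n).flatMap fun j =>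
      (List.range n).map fun k => F i j k).map (Tm.eval v)).sum =
      (l.map fun i => ∑ j ∈ range n, ∑ k ∈ range n, (F i j k).eval v).sum := by
    intro l
    induction l with
    | nil => simp
    | cons a l ih =>
      rw [List.flatMap_cons, List.map_append, List.sum_append, ih, List.map_cons, List.sum_cons]
      congr 1
      rw [sum_flatMap_range n (List.range n) (fun j k => F a j k) v, sum_list_range]
  rw [h, sum_list_range]

theorem holds_fV (d : ℕ) (v : ℕ → ℝ) : (fV d).Holds v ↔ v (vs d) <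
    ∑ i ∈ range d, ∑ j ∈ range d, ∑ k ∈ range d, v (vw d i j k) * v (4 * i) * v (4 * j + 1) *
      v (4 * k + 2) := by
  unfold fV
  simp only [Fm.Holds, eval_sumTm, Tm.eval]
  rw [sum_flatMap3]
  rfl

theorem holds_fEx (q : List (List (List ℚ)) × ℚ) (v : ℕ → ℝ) :
    (∀ φ ∈ fEx q, φ.Holds v) ↔ (fU q.1.length 0).Holds v ∧ (fU q.1.length 1).Holds v ∧
      (fU q.1.length 2).Holds v ∧ (eqRat (Tm.var (vs q.1.length)) q.2).Holds v ∧
      (∀ φ ∈ fEnt q.1, φ.Holds v) ∧ (fV q.1.length).Holds v := by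
  unfold fEx
  simp only [List.forall_mem_cons, List.forall_mem_append]
  simp

theorem etr_fEx {q : List (List (List ℚ)) × ℚ} (hq : 0 < q.2) : (ETR (conj (fEx q))) ↔
    (q.2 : ℝ) < spectralNorm (fun i j k : Fin q.1.length => ((entry q.1 i j k : ℚ) : ℝ)) := by
  have hq' : (0 : ℝ) ≤ (q.2 : ℝ) := by exact_mod_cast hq.le
  rw [exceed_iff (d := q.1.length) (fun i j k => ((entry q.1 i j k : ℚ) : ℝ)) hq']
  unfold ETR
  simp_rw [holds_conj, holds_fEx, holds_fU, holds_fEnt, holds_fV, holds_eqRat]
  set d := q.1.length with hd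
  constructor
  · rintro ⟨v, hx, hy, hz, v3, v4, g1⟩
    simp only [Tm.eval] at v3
    refine ⟨fun i => v (4 * i), fun i => v (4 * i + 1), fun i => v (4 * i + 2), hx, hy, hz, ?_⟩
    rw [← v3]
    refine lt_of_lt_of_eq g1 ?_
    exact Finset.sum_congr rfl fun i hi => Finset.sum_congr rfl fun j hj =>
      Finset.sum_congr rfl fun k hk => by
        rw [v4 i (Finset.mem_range.1 hi) j (Finset.mem_range.1 hj) k (Finset.mem_range.1 hk)]
  · rintro ⟨x, y, z, hx, hy, hz, g1⟩
    let v : ℕ → ℝ := fun n => if n % 4 = 0 then x (n / 4) else if n % 4 = 1 then y (n / 4) else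
      if n % 4 = 2 then z (n / 4) else
      if n / 4 = d * d * d then (q.2 : ℝ) else
        ((entry q.1 (n / 4 / d / d) (n / 4 / d % d) (n / 4 % d) : ℚ) : ℝ)
    have v0 : ∀ i, v (4 * i) = x i := by
      intro i
      simp only [v]
      rw [if_pos (by omega)]
      congr 1; omega
    have v0' : ∀ i, v (4 * i + 0) = x i := v0
    have v1 : ∀ i, v (4 * i + 1) = y i := by
      intro i
      simp only [v]
      rw [if_neg (by omega), if_pos (by omega)]
      congr 1; omega
    have v2 : ∀ i, v (4 * i + 2) = z i := by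
      intro i
      simp only [v]
      rw [if_neg (by omega), if_neg (by omega), if_pos (by omega)]
      congr 1; omega
    have v3 : v (vs d) = (q.2 : ℝ) := by
      simp only [v, vs]
      rw [if_neg (by omega), if_neg (by omega), if_neg (by omega), if_pos (by omega)]
    have v4 : ∀ i < d, ∀ j < d, ∀ k < d, v (vw d i j k) = ((entry q.1 i j k : ℚ) : ℝ) := by
      intro i hi j hj k hk
      have e0 : (4 * ((i * d + j) * d + k) + 3) / 4 = (i * d + j) * d + k := by omega
      have hd0 : 0 < d := by omega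
      have e1 : ((i * d + j) * d + k) % d = k := by
        rw [Nat.mul_comm, Nat.mul_add_mod, Nat.mod_eq_of_lt hk]
      have e2 : ((i * d + j) * d + k) / d = i * d + j := by
        rw [Nat.mul_comm, Nat.mul_add_div hd0, Nat.div_eq_of_lt hk, Nat.add_zero]
      have e3 : (i * d + j) % d = j := by
        rw [Nat.mul_comm, Nat.mul_add_mod, Nat.mod_eq_of_lt hj]
      have e4 : (i * d + j) / d = i := by
        rw [Nat.mul_comm, Nat.mul_add_div hd0, Nat.div_eq_of_lt hj, Nat.add_zero]
      have e5 : (i * d + j) * d + k ≠ d * d * d := by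
        have h5 : i * d + j < d * d := by
          calc i * d + j < i * d + d := by omega
            _ = (i + 1) * d := by ring
            _ ≤ d * d := Nat.mul_le_mul_right _ hi
        have h6 : (i * d + j) * d + k < d * d * d := by
          calc (i * d + j) * d + k < (i * d + j) * d + d := by omega
            _ = (i * d + j + 1) * d := by ring
            _ ≤ d * d * d := Nat.mul_le_mul_right _ h5
        omega
      simp only [v, vw]
      rw [if_neg (by omega), if_neg (by omega), if_neg (by omega), e0, if_neg e5, e2, e4, e1, e3]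
    refine ⟨v, ?_, ?_, ?_, v3, v4, ?_⟩
    · simp_rw [v0']; exact hx
    · simp_rw [v1]; exact hy
    · simp_rw [v2]; exact hz
    · rw [v3]
      refine lt_of_lt_of_eq g1 ?_
      exact Finset.sum_congr rfl fun i hi => Finset.sum_congr rfl fun j hj =>
        Finset.sum_congr rfl fun k hk => by
          rw [v4 i (Finset.mem_range.1 hi) j (Finset.mem_range.1 hj) k (Finset.mem_range.1 hk),
            v0, v1, v2]

/-- **Correctness of the formula.** -/
theorem exceed_iff_etr (q : List (List (List ℚ)) × ℚ) : SpectralNormExceed q ↔ ETR (fExc q) := by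
  unfold fExc SpectralNormExceed
  by_cases hq : isCubeB q.1 = true ∧ isPosB q.2 = true
  · have hb : (isCubeB q.1 && isPosB q.2) = true := by rw [hq.1, hq.2]; rfl
    rw [hb, cond_true]
    have h1 := (isCubeB_iff _).1 hq.1
    have h2 := (isPosB_iff _).1 hq.2
    rw [etr_fEx h2]
    tauto
  · have hb : (isCubeB q.1 && isPosB q.2) = false := by
      rw [Bool.eq_false_iff]
      intro h
      exact hq (Bool.and_eq_true_iff.1 h)
    rw [hb, cond_false]
    constructor
    · rintro ⟨h1, h2, -⟩
      exact absurd ⟨(isCubeB_iff _).2 h1, (isPosB_iff _).2 h2⟩ hq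
    · intro h
      exact absurd h H670R2.not_etr_ff

/-- **Correctness of the formula.** -/
theorem not_bound_iff_etr (q : List (List (List ℚ)) × ℚ) :
    ¬ SpectralNormBound q ↔ ETR (fNB q) := by
  unfold fNB SpectralNormBound
  by_cases hq : isCubeB q.1 = true ∧ isPosB q.2 = true
  · have hb : (isCubeB q.1 && isPosB q.2) = true := by rw [hq.1, hq.2]; rfl
    rw [hb, cond_true]
    have h1 := (isCubeB_iff _).1 hq.1
    have h2 := (isPosB_iff _).1 hq.2
    rw [etr_fEx h2]
    exact ⟨fun h => not_le.1 fun h3 => h ⟨h1, h2, h3⟩, fun h h3 => absurd h3.2.2 (not_le.2 h)⟩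
  · have hb : (isCubeB q.1 && isPosB q.2) = false := by
      rw [Bool.eq_false_iff]
      intro h
      exact hq (Bool.and_eq_true_iff.1 h)
    rw [hb, cond_false]
    constructor
    · intro _
      exact ⟨fun _ => 0, H670R2.holds_tt _⟩
    · rintro _ ⟨h1, h2, -⟩
      exact absurd ⟨(isCubeB_iff _).2 h1, (isPosB_iff _).2 h2⟩ hq

section

variable {α : Type} [TEnc α]

theorem poly_sum3 {d : α → ℕ} (hd : UPoly d) {F : α → ℕ → ℕ → ℕ → Tm}
    (hF : Poly (fun p : ((α × ℕ) × ℕ) × ℕ => F p.1.1.1 p.1.1.2 p.1.2 p.2)) :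
    Poly (fun a => sumTm ((List.range (d a)).flatMap fun i => (List.range (d a)).flatMap fun j =>
      (List.range (d a)).map fun k => F a i j k)) := by
  refine poly_sumTm (Poly.flatMap (F := fun a i => (List.range (d a)).flatMap fun j =>
    (List.range (d a)).map fun k => F a i j k) hd.range ?_)
  refine Poly.flatMap (F := fun (p : α × ℕ) j => (List.range (d p.1)).map fun k => F p.1 p.2 j k)
    (hd.range.comp (Poly.fst Poly.id)) ?_
  exact Poly.map (F := fun (p : (α × ℕ) × ℕ) k => F p.1.1 p.1.2 p.2 k)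
    (hd.range.comp (Poly.fst (Poly.fst Poly.id))) hF

theorem poly_lt' {s t : α → Tm} (hs : Poly s) (ht : Poly t) :
    Poly (fun a => Fm.lt (s a) (t a)) := poly_lt hs ht

theorem poly_fV {d : α → ℕ} (hd : UPoly d) : Poly (fun a => fV (d a)) := by
  refine poly_lt' (poly_tvar (poly_vs hd.toPoly)) ?_
  refine poly_sum3 (F := fun a i j k => Tm.mul (Tm.mul (Tm.mul (Tm.var (vw (d a) i j k))
    (Tm.var (4 * i))) (Tm.var (4 * j + 1))) (Tm.var (4 * k + 2))) hd ?_
  have e1 : Poly (fun p : ((α × ℕ) × ℕ) × ℕ => p.1.1.1) :=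
    Poly.fst (Poly.fst (Poly.fst Poly.id))
  have e2 : Poly (fun p : ((α × ℕ) × ℕ) × ℕ => p.1.1.2) :=
    Poly.snd (Poly.fst (Poly.fst Poly.id))
  have e3 : Poly (fun p : ((α × ℕ) × ℕ) × ℕ => p.1.2) := Poly.snd (Poly.fst Poly.id)
  have e4 : Poly (fun p : ((α × ℕ) × ℕ) × ℕ => p.2) := Poly.snd Poly.id
  exact poly_tmul (poly_tmul (poly_tmul (poly_tvar (poly_vw (hd.toPoly.comp e1) e2 e3 e4))
    (poly_lin0 e2)) (poly_lin e3 1)) (poly_lin e4 2)

end

theorem poly_valid : Poly (fun q : List (List (List ℚ)) × ℚ => isCubeB q.1 && isPosB q.2) := by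
  have h1 : Poly (fun q : List (List (List ℚ)) × ℚ => q.1) := Poly.fst Poly.id
  have h2 : Poly (fun q : List (List (List ℚ)) × ℚ => q.2) := Poly.snd Poly.id
  have hd : UPoly (fun q : List (List (List ℚ)) × ℚ => q.1.length) := UPoly.length h1
  refine Poly.and ?_ ?_
  · refine Poly.all (p := fun (q : List (List (List ℚ)) × ℚ) a =>
      decide (a.length = q.1.length) && a.all fun b => decide (b.length = q.1.length)) h1 ?_
    refine Poly.and (Poly.decide_eq (Poly.length (Poly.snd Poly.id))
      (hd.toPoly.comp (Poly.fst Poly.id))) ?_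
    refine Poly.all (p := fun (r : (List (List (List ℚ)) × ℚ) × List (List ℚ)) b =>
      decide (b.length = r.1.1.length)) (Poly.snd Poly.id) ?_
    exact Poly.decide_eq (Poly.length (Poly.snd Poly.id))
      (hd.toPoly.comp (Poly.fst (Poly.fst Poly.id)))
  · exact Poly.and (Poly.not (poly_isNeg (poly_ratNum h2)))
      (Poly.not (Poly.decide_eq (poly_natAbs (poly_ratNum h2)) (Poly.const 0)))

theorem poly_fEx : Poly fEx := by
  have h1 : Poly (fun q : List (List (List ℚ)) × ℚ => q.1) := Poly.fst Poly.id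
  have h2 : Poly (fun q : List (List (List ℚ)) × ℚ => q.2) := Poly.snd Poly.id
  have hd : UPoly (fun q : List (List (List ℚ)) × ℚ => q.1.length) := UPoly.length h1
  exact Poly.cons (poly_fU hd 0) (Poly.cons (poly_fU hd 1) (Poly.cons (poly_fU hd 2)
    (Poly.cons (poly_eqRat (poly_tvar (poly_vs hd.toPoly)) h2)
      (Poly.append (poly_fEnt h1) (Poly.cons (poly_fV hd) (Poly.const []))))))

/-- SPECTRAL-NORM-EXCEED belongs to `∃ℝ`. -/
theorem exceed_mem : InER (lang SpectralNormExceed) :=
  ER.InER.of_poly (Poly.cond poly_valid (poly_conj poly_fEx) (Poly.const _)) exceed_iff_etr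

/-- SPECTRAL-NORM-BOUND belongs to `∀ℝ`. -/
theorem bound_mem : InAR (lang SpectralNormBound) :=
  InAR.of_poly (Poly.cond poly_valid (poly_conj poly_fEx) (Poly.const _)) not_bound_iff_etr

end Pool.Agent.NPC.N586SN
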